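import Mathlib
import Pool.Agent.H.MP_fefe6a_co.B

namespace Pool.Agent.Results.MP_fefe6a_co.Full

open SimpleGraph Polynomial Pool.Agent.H.MP_fefe6a_co

/-- `P` is the chromatic polynomial of `Γ`: for every positive integer `n`, `P(n)` is the number
of proper colourings of `Γ` with `n` colours. -/
def IsChromPoly {V : Type} (Γ : SimpleGraph V) (P : ℝ[X]) : Prop :=
  ∀ n : ℕ, 0 < n → P.eval (n : ℝ) = Nat.card (Γ.Coloring (Fin n))

/-- Two proper colourings lie in the same `G`-orbit: one is obtained from the other by permuting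
the vertices with an element of `G`. -/
def SameOrbit {V : Type} {Γ : SimpleGraph V} (G : Subgroup (Γ ≃g Γ)) {α : Type}
    (c d : Γ.Coloring α) : Prop :=
  ∃ g ∈ G, ∀ v, d (g v) = c v

/-- `Q` is the orbital chromatic polynomial of `(Γ, G)`: for every positive integer `n`, `Q(n)` is
the number of `G`-orbits on the proper colourings of `Γ` with `n` colours. -/
def IsOrbPoly {V : Type} (Γ : SimpleGraph V) (G : Subgroup (Γ ≃g Γ)) (Q : ℝ[X]) : Prop :=
  ∀ n : ℕ, 0 < n →
    Q.eval (n : ℝ) = Nat.card (Quot (fun c d : Γ.Coloring (Fin n) => SameOrbit G c d))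

def rel (t q : ℕ) : V t q Bool → V t q Bool → Prop
  | .inl i, .inr (.inl (e, false)) => i = e.1
  | .inl i, .inr (.inl (e, true)) => i = e.2.1
  | .inr (.inl (e, false)), .inr (.inl (e', true)) => e = e'
  | .inl _, .inr (.inr _) => True
  | .inr (.inr (b, _)), .inr (.inr (b', _)) => b = b'
  | _, _ => False

def Gam (t q : ℕ) : SimpleGraph (V t q Bool) := SimpleGraph.fromRel (rel t q)

theorem good_iff (t q : ℕ) {α : Type} (c : V t q Bool → α) :
    (∀ u v, (Gam t q).Adj u v → c u ≠ c v) ↔ Good c := by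
  constructor
  · intro h
    refine ⟨fun e => ⟨h _ _ ?_, h _ _ ?_, h _ _ ?_⟩, fun b => ⟨fun k l e => ?_, fun k i => h _ _ ?_⟩⟩
    · simp [Gam, rel]
    · simp [Gam, rel]
    · simp [Gam, rel]
    · by_contra hk
      exact h (.inr (.inr (b, k))) (.inr (.inr (b, l))) (by simp [Gam, rel, hk]) e
    · simp [Gam, rel]
  · rintro ⟨h1, h2⟩
    have key : ∀ u v, u ≠ v → rel t q u v → c u ≠ c v := by
      intro u v hne hr
      rcases u with i | ⟨e, b⟩ | ⟨b, k⟩ <;> rcases v with j | ⟨e', b'⟩ | ⟨b', k'⟩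
      · exact hr.elim
      · cases b'
        · have : i = e'.1 := hr
          subst this; exact (h1 e').1.symm
        · have : i = e'.2.1 := hr
          subst this; exact (h1 e').2.1.symm
      · exact ((h2 b').2 k' i).symm
      · cases b <;> exact hr.elim
      · cases b <;> cases b'
        · exact hr.elim
        · have : e = e' := hr
          subst this; exact (h1 e).2.2
        · exact hr.elim
        · exact hr.elim
      · cases b <;> exact hr.elim
      · exact hr.elim
      · exact hr.elim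
      · have : b = b' := hr
        subst this
        intro e
        exact hne (by rw [(h2 b).1 e])
    intro u v h
    rw [Gam, fromRel_adj] at h
    rcases h.2 with h' | h'
    · exact key u v h.1 h'
    · exact (key v u h.1.symm h').symm

def mp {t q : ℕ} {β γ : Type} (f : β → γ) : V t q β → V t q γ :=
  Sum.map id (Sum.map id (Prod.map f id))

theorem sw_sw (t q : ℕ) (v : V t q Bool) : mp not (mp not v) = v := by
  rcases v with i | e | ⟨b, k⟩ <;> simp [mp]

theorem rel_sw (t q : ℕ) (u v : V t q Bool) : rel t q (mp not u) (mp not v) ↔ rel t q u v := by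
  rcases u with i | ⟨e, b⟩ | ⟨b, k⟩ <;> rcases v with j | ⟨e', b'⟩ | ⟨b', k'⟩ <;>
    first
    | exact Iff.rfl
    | (cases b <;> exact Iff.rfl)
    | (cases b' <;> exact Iff.rfl)
    | (cases b <;> cases b' <;> simp [mp, rel])

def sw (t q : ℕ) : Gam t q ≃g Gam t q where
  toFun := mp not
  invFun := mp not
  left_inv := sw_sw t q
  right_inv := sw_sw t q
  map_rel_iff' := by
    intro u v
    have hi : mp not u = mp not v ↔ u = v :=
      ⟨fun h => by rw [← sw_sw t q u, h, sw_sw], fun h => by rw [h]⟩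
    simp only [Gam, fromRel_adj, Equiv.coe_fn_mk, rel_sw, ne_eq, hi]

theorem sw_mul (t q : ℕ) : sw t q * sw t q = 1 := by
  ext v
  exact sw_sw t q v

def Grp (t q : ℕ) : Subgroup (Gam t q ≃g Gam t q) where
  carrier := {g | g = 1 ∨ g = sw t q}
  one_mem' := Or.inl rfl
  mul_mem' := by
    rintro a b (rfl | rfl) (rfl | rfl)
    · left; simp
    · right; simp
    · right; simp
    · left; exact sw_mul t q
  inv_mem' := by
    rintro a (rfl | rfl)
    · left; simp
    · right; exact inv_eq_of_mul_eq_one_right (sw_mul t q)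

def colEq (t q : ℕ) (α : Type) : (Gam t q).Coloring α ≃ {c : V t q Bool → α // Good c} where
  toFun c := ⟨c, (good_iff t q c).1 fun _ _ h => c.valid h⟩
  invFun c := Coloring.mk c.1 fun h => (good_iff t q c.1).2 c.2 _ _ h
  left_inv _ := rfl
  right_inv _ := rfl

def sg (t q : ℕ) (α : Type) (c : (Gam t q).Coloring α) : (Gam t q).Coloring α :=
  Coloring.mk (fun v => c (mp not v)) fun h => c.valid ((sw t q).map_rel_iff.2 h)

def fixEq (t q : ℕ) (α : Type) : {c : (Gam t q).Coloring α // sg t q α c = c} ≃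
    {c : V t q Unit → α // Good c} where
  toFun c := ⟨fun v => c.1 (mp (fun _ => false) v),
    ((colEq t q α c.1).2).1, fun _ => ((colEq t q α c.1).2).2 false⟩
  invFun d := ⟨(colEq t q α).symm ⟨fun v => d.1 (mp (fun _ => ()) v), d.2.1, fun _ => d.2.2 ()⟩, by
    ext v
    rcases v with i | e | ⟨b, k⟩ <;> rfl⟩
  left_inv c := by
    apply Subtype.ext
    ext v
    rcases v with i | e | ⟨b, k⟩
    · rfl
    · rfl
    · cases b
      · rfl
      · exact DFunLike.congr_fun c.2 (.inr (.inr (true, k)))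
  right_inv d := by
    apply Subtype.ext
    funext v
    rcases v with i | e | ⟨b, k⟩ <;> rfl

theorem orb_count (t q n : ℕ) :
    (Nat.card (Quot (fun c d : (Gam t q).Coloring (Fin n) => SameOrbit (Grp t q) c d)) : ℝ) =
      (1 / 2) * (F t q 2 n + F t q 1 n) := by
  have : Finite ((Gam t q).Coloring (Fin n)) := Finite.of_equiv _ (colEq t q _).symm
  have h := orb2 (sg t q (Fin n)) fun c => by
    ext v
    exact congrArg (fun z => ((c z : Fin n) : ℕ)) (sw_sw t q v)
  have hr : (fun c d : (Gam t q).Coloring (Fin n) => SameOrbit (Grp t q) c d) =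
      fun a b => b = a ∨ b = sg t q (Fin n) a := by
    funext a b
    apply propext
    constructor
    · rintro ⟨g, rfl | rfl, hg⟩
      · left
        exact DFunLike.ext _ _ hg
      · right
        refine DFunLike.ext _ _ fun v => ?_
        have := hg (mp not v)
        rw [show (sw t q) (mp not v) = v from sw_sw t q v] at this
        exact this
    · rintro (rfl | rfl)
      · exact ⟨1, Or.inl rfl, fun v => rfl⟩
      · exact ⟨sw t q, Or.inr rfl, fun v => congrArg a (sw_sw t q v)⟩
  rw [hr]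
  rw [Nat.card_congr (colEq t q _), Nat.card_congr (fixEq t q _)] at h
  have h' := congrArg (Nat.cast : ℕ → ℝ) h
  push_cast at h'
  rw [count, count] at h'
  simp only [Fintype.card_bool, Fintype.card_unit] at h'
  linarith

theorem result (N : ℝ) (_hN : 0 < N) :
    ∃ (V : Type) (_ : Fintype V) (_ : Nonempty V) (Γ : SimpleGraph V) (G : Subgroup (Γ ≃g Γ))
      (P Q : ℝ[X]) (lam r : ℝ), IsChromPoly Γ P ∧ IsOrbPoly Γ G Q ∧
        IsGreatest {x : ℝ | P.IsRoot x} lam ∧ Q.IsRoot r ∧ lam + N ≤ r := by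
  obtain ⟨s, hs⟩ := exists_nat_ge N
  obtain ⟨q, x, h1, h2, h3⟩ := F_neg (s + 2) (by omega)
  obtain ⟨P, hP⟩ := isP_F (s + 2) q 2
  obtain ⟨Q, hQ⟩ := (IsP.c (1 / 2)).mul ((isP_F (s + 2) q 2).add (isP_F (s + 2) q 1))
  beta_reduce at hQ
  have hroot : ∀ y, P.IsRoot y → y ≤ ((s + 2 : ℕ) : ℝ) := by
    intro y hy
    by_contra hc
    have := F_pos (s + 2) q (by omega) y (not_le.1 hc)
    rw [← hP, hy.eq_zero] at this
    exact lt_irrefl _ this
  have hP0 : P ≠ 0 := by
    intro h
    have := hroot (((s + 2 : ℕ) : ℝ) + 1) (by rw [h]; simp)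
    linarith
  obtain ⟨lam, hl, hmax⟩ := Set.exists_max_image {x : ℝ | P.IsRoot x} id
    (Polynomial.finite_setOf_isRoot hP0) ⟨0, by
      show P.eval 0 = 0
      rw [hP, F_zero _ _ _ (by omega)]⟩
  have hge : 0 ≤ Q.eval ((2 * (s + 2) : ℕ) : ℝ) := by
    rw [hQ, ← orb_count]; exact Nat.cast_nonneg _
  have hx : x ≤ ((2 * (s + 2) : ℕ) : ℝ) := by push_cast at h2 ⊢; linarith
  obtain ⟨r, hr, hr0⟩ := intermediate_value_Icc hx Q.continuous.continuousOn
    (show (0 : ℝ) ∈ Set.Icc (Q.eval x) (Q.eval ((2 * (s + 2) : ℕ) : ℝ)) from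
      ⟨by rw [hQ]; linarith, hge⟩)
  refine ⟨V (s + 2) q Bool, inferInstance, ⟨.inl 0⟩, Gam (s + 2) q, Grp (s + 2) q, P, Q, lam, r,
    ?_, ?_, ⟨hl, fun y hy => hmax y hy⟩, hr0, ?_⟩
  · intro n _
    rw [hP, Nat.card_congr (colEq _ _ _), count, Fintype.card_bool]
  · intro n _
    rw [hQ, orb_count]
  · have := hroot lam hl
    have := hr.1
    push_cast at *
    linarith

end Pool.Agent.Results.MP_fefe6a_co.Full
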